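import Pool.Agent.Helper20.Turn.Main

/-!
# Oriented paths with many turning points in oriented graphs of large minimum semidegree
-/

set_option autoImplicit false

namespace Pool.Agent.Results.MP_f8e2d3_co.ManyTurningPoints

/-- The number of turning points of the oriented path whose `i`-th arc points forward if
`σ i = true` and backward if `σ i = false`: the number of pairs of consecutive arcs with different
directions. -/
noncomputable def turningPoints {k : ℕ} (σ : Fin k → Bool) : ℕ :=
  {i : Fin k | ∃ j : Fin k, (j : ℕ) = i + 1 ∧ σ j ≠ σ i}.ncard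

open Pool.Agent.Helper20.Turn in
/-- Let `G` be a finite nonempty oriented graph and `σ` an oriented path with `k` arcs and `T`
turning points. If all out-degrees and all in-degrees of `G` are at least `k - (T - 5) / 6`, then
`G` contains `σ`. -/
theorem result :
    ∀ (k : ℕ) (σ : Fin k → Bool) (V : Type) [Finite V] [Nonempty V] (G : Digraph V),
      (∀ u v, G.Adj u v → ¬ G.Adj v u) →
      (∀ v, 6 * k + 5 ≤ 6 * {w | G.Adj v w}.ncard + turningPoints σ ∧
        6 * k + 5 ≤ 6 * {w | G.Adj w v}.ncard + turningPoints σ) →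
      ∃ f : Fin (k + 1) → V, Function.Injective f ∧
        ∀ i : Fin k, (σ i = true → G.Adj (f i.castSucc) (f i.succ)) ∧
          (σ i = false → G.Adj (f i.succ) (f i.castSucc)) := by
  classical
  intro k σ V _ _ G hG hd
  have hfin : Nonempty (Fintype V) := ⟨Fintype.ofFinite V⟩
  obtain ⟨hF⟩ := hfin
  set R : Bool → V → V → Prop := fun b v w => if b = true then G.Adj v w else G.Adj w v with hR
  have hRt : ∀ v w, R true v w ↔ G.Adj v w := fun v w => by simp [hR]
  have hRf : ∀ v w, R false v w ↔ G.Adj w v := fun v w => by simp [hR]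
  have hR1 : ∀ b x y, R b x y → R (!b) y x := by
    intro b x y h
    cases b
    · exact (hRt _ _).2 ((hRf _ _).1 h)
    · exact (hRf _ _).2 ((hRt _ _).1 h)
  have hR2 : ∀ b x y, R b x y → ¬ R b y x := by
    intro b x y h h'
    cases b
    · exact hG _ _ ((hRf _ _).1 h) ((hRf _ _).1 h')
    · exact hG _ _ ((hRt _ _).1 h) ((hRt _ _).1 h')
  set P : ℕ → Bool := fun t => if h : t < k then σ ⟨t, h⟩ else true with hP
  have hPσ : ∀ i : Fin k, P i = σ i := fun i => by simp [hP]
  have hT : turningPoints σ ≤ T P k := by
    unfold turningPoints T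
    rw [← Set.ncard_coe_finset]
    have hinj : Function.Injective (fun i : Fin k => (i : ℕ) + 1) := by
      intro a b hab
      exact Fin.ext (Nat.succ.inj hab)
    rw [← Set.ncard_image_of_injective _ hinj]
    apply Set.ncard_le_ncard _ (Finset.finite_toSet _)
    rintro x ⟨i, ⟨j, hj, hne⟩, rfl⟩
    simp only [Finset.coe_filter, Finset.mem_range, Set.mem_setOf_eq]
    refine ⟨by omega, by omega, ?_⟩
    rw [Nat.add_sub_cancel, ← hj, hPσ, hPσ]
    exact fun h => hne h.symm
  have hTk : turningPoints σ ≤ k := by
    unfold turningPoints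
    calc _ ≤ (Set.univ : Set (Fin k)).ncard := Set.ncard_le_ncard (Set.subset_univ _)
      _ = k := by rw [Set.ncard_univ, Nat.card_eq_fintype_card, Fintype.card_fin]
  have hcard : ∀ b v, (N R b v).card = {w | R b v w}.ncard := by
    intro b v
    rw [← Set.ncard_coe_finset]
    congr 1
    ext w
    simp [N]
  set d := (6 * k + 5 - turningPoints σ + 5) / 6 with hdd
  have hdN : ∀ b v, d ≤ (N R b v).card := by
    intro b v
    have h1 := hd v
    rw [hcard]
    cases b
    · have e1 : {w | R false v w} = {w | G.Adj w v} := by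
        ext w; exact hRf v w
      rw [e1]
      omega
    · have e1 : {w | R true v w} = {w | G.Adj v w} := by
        ext w; exact hRt v w
      rw [e1]
      omega
  obtain ⟨f, hf1, hf2⟩ := main (P := P) hR1 hR2 inferInstance d k hdN (by omega)
  refine ⟨fun i => f i, ?_, ?_⟩
  · intro a b hab
    exact Fin.ext (hf1 a (Nat.lt_succ_iff.1 a.2) b (Nat.lt_succ_iff.1 b.2) hab)
  · intro i
    have h1 := hf2 i i.2
    rw [hPσ] at h1
    refine ⟨fun hs => ?_, fun hs => ?_⟩
    · rw [hs] at h1
      exact (hRt _ _).1 h1
    · rw [hs] at h1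
      exact (hRf _ _).1 h1

end Pool.Agent.Results.MP_f8e2d3_co.ManyTurningPoints
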